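import Pool.Agent.PFJ.Stmts
import Pool.Agent.Helper20_PFS.Mxi
import Pool.Agent.Helper60_PFS.Simp

/-!
# MP_e54c4c_gt, squad PFJ, row MXE: maximality (adapted from helper20)
-/

set_option autoImplicit false

open Matrix Filter Topology

namespace Pool.Agent.PFJ.H83

open Pool.Agent.PFS Pool.Agent.PFS.H20 Pool.Agent.PFJ

theorem mxe : MxeStmt := by
  intro n C hC K hK w hw hst m w' hw' hsub
  classical
  have hwi := Pool.Agent.PFS.H60.lin n C hC (Fin K) w hw
  have hwi' := Pool.Agent.PFS.H60.lin n C hC (Fin m) w' hw'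
  have hstep : ∀ i : Fin K, ∃ (j : Fin m) (a : ℝ), 0 < a ∧ w i = a • w' j := by
    intro i
    obtain ⟨c, hc, he⟩ := vertex_mem hwi' hsub i
    have hne : w i ≠ 0 := hwi.ne_zero i
    obtain ⟨j, hj⟩ : ∃ j, c j ≠ 0 := by
      by_contra hcon
      push Not at hcon
      apply hne
      rw [he]
      simp [hcon]
    have hcj : 0 < c j := lt_of_le_of_ne (hc j) (Ne.symm hj)
    have h1 : w i - c j • w' j ∈ closure C := by
      have h2 : w i - c j • w' j = ∑ l ∈ Finset.univ.erase j, c l • w' l := by
        rw [he, ← Finset.add_sum_erase _ _ (Finset.mem_univ j)]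
        simp
      rw [h2]
      exact hC.cl_sum fun l _ => hC.cl_smul (hw'.cl l) (hc l)
    obtain ⟨d, hde⟩ := hst i (c j • w' j) (hC.cl_smul (hw'.cl j) (hc j)) 1
      (by rw [one_smul]; exact h1)
    have hdne : d ≠ 0 := by
      intro h0
      rw [h0, zero_smul] at hde
      rcases smul_eq_zero.1 hde with h4 | h4
      · exact hj h4
      · exact hwi'.ne_zero j h4
    have hdi : 0 < d := by
      rcases lt_or_gt_of_ne hdne with h0 | h0
      · exfalso
        apply hne
        refine hC.salient _ (hw.cl i) ?_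
        have h5 : -w i = (-d)⁻¹ • (c j • w' j) := by
          rw [hde, smul_smul, inv_neg, neg_mul, inv_mul_cancel₀ hdne, neg_smul, one_smul]
        rw [h5]
        exact hC.cl_smul (hC.cl_smul (hw'.cl j) (hc j)) (inv_pos.2 (by linarith)).le
      · exact h0
    refine ⟨j, d⁻¹ * c j, by positivity, ?_⟩
    rw [mul_smul, hde, smul_smul, inv_mul_cancel₀ hdi.ne', one_smul]
  choose σ a ha hwa using hstep
  have hinj : Function.Injective σ := by
    intro i i' hii
    by_contra hne
    rw [Fintype.linearIndependent_iff] at hwi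
    have h1 : ∑ l, ((Pi.single i (a i') : Fin K → ℝ) l - (Pi.single i' (a i) : Fin K → ℝ) l) •
        w l = 0 := by
      simp only [sub_smul, Finset.sum_sub_distrib]
      rw [Finset.sum_eq_single i, Finset.sum_eq_single i']
      · rw [Pi.single_eq_same, Pi.single_eq_same, hwa i, hwa i', smul_smul, smul_smul, hii,
          mul_comm, sub_self]
      · intro l _ hl
        rw [Pi.single_eq_of_ne hl, zero_smul]
      · intro h
        exact absurd (Finset.mem_univ _) h
      · intro l _ hl
        rw [Pi.single_eq_of_ne hl, zero_smul]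
      · intro h
        exact absurd (Finset.mem_univ _) h
    have h2 := hwi _ h1 i
    rw [Pi.single_eq_same, Pi.single_eq_of_ne hne, sub_zero] at h2
    exact (ha i').ne' h2
  have hsurj : Function.Surjective σ := by
    intro j0
    by_contra hcon
    push Not at hcon
    have h1 : ∑ i, w i = ∑ j, (∑ i, if σ i = j then a i else 0) • w' j := by
      simp only [Finset.sum_smul]
      rw [Finset.sum_comm]
      refine Finset.sum_congr rfl fun i _ => ?_
      rw [Finset.sum_eq_single (σ i)]
      · rw [if_pos rfl, ← hwa i]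
      · intro j _ hj
        rw [if_neg (Ne.symm hj), zero_smul]
      · intro h
        exact absurd (Finset.mem_univ _) h
    have h2 := hw.sum_mem
    rw [h1] at h2
    refine hw'.bd _ (fun j => ?_) ⟨j0, ?_⟩ h2
    · refine Finset.sum_nonneg fun i _ => ?_
      split_ifs
      · exact (ha i).le
      · exact le_rfl
    · refine Finset.sum_eq_zero fun i _ => ?_
      rw [if_neg (hcon i)]
  rintro y ⟨c, hc, rfl⟩
  refine ⟨fun i => c (σ i) / a i, fun i => div_pos (hc _) (ha i), ?_⟩
  have h1 := (Equiv.ofBijective σ ⟨hinj, hsurj⟩).sum_comp fun j => c j • w' j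
  rw [← h1]
  refine Finset.sum_congr rfl fun i _ => ?_
  rw [Equiv.ofBijective_apply]
  conv_rhs => rw [hwa i, smul_smul, div_mul_cancel₀ _ (ha i).ne']

end Pool.Agent.PFJ.H83
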